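import Mathlib

/-!
# The graph `K_{3,3}` is a bounded tolerance graph but not a max-tolerance graph
-/

set_option autoImplicit false

namespace Pool.Agent.Results.MP_78c384_co.KThreeThree

/-- Length of the intersection of the closed intervals `[L u, R u]` and `[L v, R v]`
(zero if they are disjoint). -/
noncomputable def overlap {V : Type*} (L R : V → ℝ) (u v : V) : ℝ :=
  max 0 (min (R u) (R v) - max (L u) (L v))

/-- `G` is a bounded tolerance graph. -/
def IsBoundedTolerance {V : Type*} (G : SimpleGraph V) : Prop :=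
  ∃ L R t : V → ℝ, (∀ v, L v ≤ R v) ∧ (∀ v, 0 < t v ∧ t v ≤ R v - L v) ∧
    ∀ x y, x ≠ y → (G.Adj x y ↔ min (t x) (t y) ≤ overlap L R x y)

/-- `G` is a max-tolerance graph. -/
def IsMaxTolerance {V : Type*} (G : SimpleGraph V) : Prop :=
  ∃ L R t : V → ℝ, (∀ v, L v ≤ R v) ∧ (∀ v, 0 < t v) ∧
    ∀ x y, x ≠ y → (G.Adj x y ↔ max (t x) (t y) ≤ overlap L R x y)

/-- The key inequality argument, with the three disjoint triangles `a 0, a 1, a 2` stacked in the
first direction. -/
lemma core (ac ad ae bc bd be : Fin 3 → ℝ)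
    (E : ∀ i j, max (ac i) (bc j) + max (ad i) (bd j) + max (ae i) (be j) ≤ 0)
    (h01 : 0 < ac 0 + ad 1 + ae 1) (h12 : 0 < ac 1 + ad 2 + ae 2)
    (NB : ∀ i j, i ≠ j → 0 < max (bc i) (bc j) + max (bd i) (bd j) + max (be i) (be j)) :
    False := by
  have E' : ∀ i j, (ac i + ad i + ae i ≤ 0) ∧ (bc j + bd j + be j ≤ 0) ∧
      (ac i + bd j + be j ≤ 0) ∧ (bc j + ad i + ae i ≤ 0) ∧
      (ac i + ad i + be j ≤ 0) ∧ (bc j + bd j + ae i ≤ 0) ∧
      (ac i + bd j + ae i ≤ 0) ∧ (bc j + ad i + be j ≤ 0) := by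
    intro i j
    have h := E i j
    have h1 := le_max_left (ac i) (bc j)
    have h2 := le_max_right (ac i) (bc j)
    have h3 := le_max_left (ad i) (bd j)
    have h4 := le_max_right (ad i) (bd j)
    have h5 := le_max_left (ae i) (be j)
    have h6 := le_max_right (ae i) (be j)
    refine ⟨?_, ?_, ?_, ?_, ?_, ?_, ?_, ?_⟩ <;> linarith
  have N' : ∀ i j, i ≠ j → (0 < bd i + bc j + be j) ∨ (0 < bd j + bc i + be i) ∨
      (0 < be i + bc j + bd j) ∨ (0 < be j + bc i + bd i) := by
    intro i j hij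
    have h := NB i j hij
    obtain ⟨-, -, p3, p4, -, -, -, -⟩ := E' 0 i
    obtain ⟨-, -, q3, q4, -, -, -, -⟩ := E' 0 j
    obtain ⟨-, r2, r3, r4, -, -, -, -⟩ := E' 1 i
    obtain ⟨-, s2, s3, s4, -, -, -, -⟩ := E' 1 j
    rcases max_choice (bc i) (bc j) with h1 | h1 <;> rcases max_choice (bd i) (bd j) with h2 | h2 <;>
      rcases max_choice (be i) (be j) with h3 | h3 <;> rw [h1, h2, h3] at h
    · linarith
    · right; right; right; linarith
    · right; left; linarith
    · exfalso; linarith
    · exfalso; linarith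
    · left; linarith
    · right; right; left; linarith
    · linarith
  obtain ⟨a1, a2, a3, a4, a5, a6, a7, a8⟩ := E' 0 0
  obtain ⟨-, b2, b3, b4, b5, b6, b7, b8⟩ := E' 0 1
  obtain ⟨-, c2, c3, c4, c5, c6, c7, c8⟩ := E' 0 2
  obtain ⟨d1, -, d3, d4, d5, d6, d7, d8⟩ := E' 1 0
  obtain ⟨-, -, e3, e4, e5, e6, e7, e8⟩ := E' 1 1
  obtain ⟨-, -, f3, f4, f5, f6, f7, f8⟩ := E' 1 2
  obtain ⟨g1, -, g3, g4, g5, g6, g7, g8⟩ := E' 2 0
  obtain ⟨-, -, i3, i4, i5, i6, i7, i8⟩ := E' 2 1
  obtain ⟨-, -, j3, j4, j5, j6, j7, j8⟩ := E' 2 2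
  rcases N' 0 1 (by decide) with h | h | h | h <;>
    rcases N' 0 2 (by decide) with h' | h' | h' | h' <;>
    rcases N' 1 2 (by decide) with h'' | h'' | h'' | h'' <;> linarith

/-- `a i` lies strictly above `a j` in the first of the three given directions. -/
def Above (ac ad ae : Fin 3 → ℝ) (i j : Fin 3) : Prop := 0 < ac i + ad j + ae j

/-- If all pairs among the `a i` are separated in the first direction, we get a contradiction. -/
lemma core' (ac ad ae bc bd be : Fin 3 → ℝ)
    (E : ∀ i j, max (ac i) (bc j) + max (ad i) (bd j) + max (ae i) (be j) ≤ 0)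
    (NA : ∀ i j, i ≠ j → Above ac ad ae i j ∨ Above ac ad ae j i)
    (NB : ∀ i j, i ≠ j → 0 < max (bc i) (bc j) + max (bd i) (bd j) + max (be i) (be j)) :
    False := by
  have key : ∀ x y z : Fin 3, Above ac ad ae x y → Above ac ad ae y z → False := by
    intro x y z hxy hyz
    exact core (ac ∘ ![x, y, z]) (ad ∘ ![x, y, z]) (ae ∘ ![x, y, z]) bc bd be
      (fun i j => E _ j) (by simpa [Above] using hxy) (by simpa [Above] using hyz) NB
  rcases NA 0 1 (by decide) with h | h <;> rcases NA 1 2 (by decide) with h' | h' <;>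
    rcases NA 0 2 (by decide) with h'' | h''
  · exact key _ _ _ h h'
  · exact key _ _ _ h h'
  · exact key _ _ _ h'' h'
  · exact key _ _ _ h'' h
  · exact key _ _ _ h h''
  · exact key _ _ _ h' h''
  · exact key _ _ _ h' h
  · exact key _ _ _ h' h

/-- There are no two triples of homothetic triangles, pairwise disjoint within each triple and
pairwise intersecting across the triples. -/
lemma no_two_triples (a b : Fin 3 → Fin 3 → ℝ)
    (E : ∀ i j, max (a 0 i) (b 0 j) + max (a 1 i) (b 1 j) + max (a 2 i) (b 2 j) ≤ 0)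
    (NA : ∀ i j, i ≠ j →
      0 < max (a 0 i) (a 0 j) + max (a 1 i) (a 1 j) + max (a 2 i) (a 2 j))
    (NB : ∀ i j, i ≠ j →
      0 < max (b 0 i) (b 0 j) + max (b 1 i) (b 1 j) + max (b 2 i) (b 2 j)) : False := by
  have E' : ∀ i j, (a 0 i + a 1 i + a 2 i ≤ 0) ∧ (b 0 j + b 1 j + b 2 j ≤ 0) ∧
      (a 0 i + b 1 j + b 2 j ≤ 0) ∧ (b 0 j + a 1 i + a 2 i ≤ 0) ∧
      (a 0 i + a 1 i + b 2 j ≤ 0) ∧ (b 0 j + b 1 j + a 2 i ≤ 0) ∧
      (a 0 i + b 1 j + a 2 i ≤ 0) ∧ (b 0 j + a 1 i + b 2 j ≤ 0) := by
    intro i j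
    have h := E i j
    have h1 := le_max_left (a 0 i) (b 0 j)
    have h2 := le_max_right (a 0 i) (b 0 j)
    have h3 := le_max_left (a 1 i) (b 1 j)
    have h4 := le_max_right (a 1 i) (b 1 j)
    have h5 := le_max_left (a 2 i) (b 2 j)
    have h6 := le_max_right (a 2 i) (b 2 j)
    refine ⟨?_, ?_, ?_, ?_, ?_, ?_, ?_, ?_⟩ <;> linarith
  -- separation of two triangles of one family in some direction
  have sepA : ∀ i j, i ≠ j → (Above (a 0) (a 1) (a 2) i j ∨ Above (a 0) (a 1) (a 2) j i) ∨
      (Above (a 1) (a 0) (a 2) i j ∨ Above (a 1) (a 0) (a 2) j i) ∨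
      (Above (a 2) (a 0) (a 1) i j ∨ Above (a 2) (a 0) (a 1) j i) := by
    intro i j hij
    have h := NA i j hij
    have p := (E' i 0).1
    have q := (E' j 0).1
    unfold Above
    rcases max_choice (a 0 i) (a 0 j) with h1 | h1 <;>
      rcases max_choice (a 1 i) (a 1 j) with h2 | h2 <;>
      rcases max_choice (a 2 i) (a 2 j) with h3 | h3 <;> rw [h1, h2, h3] at h
    · linarith
    · exact Or.inr (Or.inr (Or.inr (by linarith)))
    · exact Or.inr (Or.inl (Or.inr (by linarith)))
    · exact Or.inl (Or.inl (by linarith))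
    · exact Or.inl (Or.inr (by linarith))
    · exact Or.inr (Or.inl (Or.inl (by linarith)))
    · exact Or.inr (Or.inr (Or.inl (by linarith)))
    · linarith
  have sepB : ∀ i j, i ≠ j → (Above (b 0) (b 1) (b 2) i j ∨ Above (b 0) (b 1) (b 2) j i) ∨
      (Above (b 1) (b 0) (b 2) i j ∨ Above (b 1) (b 0) (b 2) j i) ∨
      (Above (b 2) (b 0) (b 1) i j ∨ Above (b 2) (b 0) (b 1) j i) := by
    intro i j hij
    have h := NB i j hij
    have p := (E' 0 i).2.1
    have q := (E' 0 j).2.1
    unfold Above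
    rcases max_choice (b 0 i) (b 0 j) with h1 | h1 <;>
      rcases max_choice (b 1 i) (b 1 j) with h2 | h2 <;>
      rcases max_choice (b 2 i) (b 2 j) with h3 | h3 <;> rw [h1, h2, h3] at h
    · linarith
    · exact Or.inr (Or.inr (Or.inr (by linarith)))
    · exact Or.inr (Or.inl (Or.inr (by linarith)))
    · exact Or.inl (Or.inl (by linarith))
    · exact Or.inl (Or.inr (by linarith))
    · exact Or.inr (Or.inl (Or.inl (by linarith)))
    · exact Or.inr (Or.inr (Or.inl (by linarith)))
    · linarith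
  -- the two families cannot use the same direction
  have dis0 : (∀ i j, ¬ Above (a 0) (a 1) (a 2) i j) ∨ (∀ i j, ¬ Above (b 0) (b 1) (b 2) i j) := by
    by_contra hc
    push Not at hc
    obtain ⟨⟨i, j, h⟩, ⟨k, l, h'⟩⟩ := hc
    unfold Above at h h'
    have h1 := (E' j k).2.2.2.1
    have h2 := (E' i l).2.2.1
    linarith
  have dis1 : (∀ i j, ¬ Above (a 1) (a 0) (a 2) i j) ∨ (∀ i j, ¬ Above (b 1) (b 0) (b 2) i j) := by
    by_contra hc
    push Not at hc
    obtain ⟨⟨i, j, h⟩, ⟨k, l, h'⟩⟩ := hc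
    unfold Above at h h'
    have h1 := (E' j k).2.2.2.2.2.2.1
    have h2 := (E' i l).2.2.2.2.2.2.2
    linarith
  have dis2 : (∀ i j, ¬ Above (a 2) (a 0) (a 1) i j) ∨ (∀ i j, ¬ Above (b 2) (b 0) (b 1) i j) := by
    by_contra hc
    push Not at hc
    obtain ⟨⟨i, j, h⟩, ⟨k, l, h'⟩⟩ := hc
    unfold Above at h h'
    have h1 := (E' j k).2.2.2.2.1
    have h2 := (E' i l).2.2.2.2.2.1
    linarith
  -- one family uses a single direction
  have A01 : (∀ i j, ¬ Above (a 0) (a 1) (a 2) i j) → (∀ i j, ¬ Above (a 1) (a 0) (a 2) i j) →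
      False := by
    intro h0 h1
    refine core' (a 2) (a 0) (a 1) (b 2) (b 0) (b 1) (fun i j => by have := E i j; linarith)
      (fun i j hij => ?_) (fun i j hij => by have := NB i j hij; linarith)
    rcases sepA i j hij with (h | h) | (h | h) | h
    exacts [absurd h (h0 _ _), absurd h (h0 _ _), absurd h (h1 _ _), absurd h (h1 _ _), h]
  have A02 : (∀ i j, ¬ Above (a 0) (a 1) (a 2) i j) → (∀ i j, ¬ Above (a 2) (a 0) (a 1) i j) →
      False := by
    intro h0 h1
    refine core' (a 1) (a 0) (a 2) (b 1) (b 0) (b 2) (fun i j => by have := E i j; linarith)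
      (fun i j hij => ?_) (fun i j hij => by have := NB i j hij; linarith)
    rcases sepA i j hij with (h | h) | h | (h | h)
    exacts [absurd h (h0 _ _), absurd h (h0 _ _), h, absurd h (h1 _ _), absurd h (h1 _ _)]
  have A12 : (∀ i j, ¬ Above (a 1) (a 0) (a 2) i j) → (∀ i j, ¬ Above (a 2) (a 0) (a 1) i j) →
      False := by
    intro h0 h1
    refine core' (a 0) (a 1) (a 2) (b 0) (b 1) (b 2) (fun i j => by have := E i j; linarith)
      (fun i j hij => ?_) (fun i j hij => by have := NB i j hij; linarith)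
    rcases sepA i j hij with h | (h | h) | (h | h)
    exacts [h, absurd h (h0 _ _), absurd h (h0 _ _), absurd h (h1 _ _), absurd h (h1 _ _)]
  have B01 : (∀ i j, ¬ Above (b 0) (b 1) (b 2) i j) → (∀ i j, ¬ Above (b 1) (b 0) (b 2) i j) →
      False := by
    intro h0 h1
    refine core' (b 2) (b 0) (b 1) (a 2) (a 0) (a 1)
      (fun i j => by
        have := E j i
        rw [max_comm (b 2 i), max_comm (b 0 i), max_comm (b 1 i)]; linarith)
      (fun i j hij => ?_) (fun i j hij => by have := NA i j hij; linarith)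
    rcases sepB i j hij with (h | h) | (h | h) | h
    exacts [absurd h (h0 _ _), absurd h (h0 _ _), absurd h (h1 _ _), absurd h (h1 _ _), h]
  have B02 : (∀ i j, ¬ Above (b 0) (b 1) (b 2) i j) → (∀ i j, ¬ Above (b 2) (b 0) (b 1) i j) →
      False := by
    intro h0 h1
    refine core' (b 1) (b 0) (b 2) (a 1) (a 0) (a 2)
      (fun i j => by
        have := E j i
        rw [max_comm (b 2 i), max_comm (b 0 i), max_comm (b 1 i)]; linarith)
      (fun i j hij => ?_) (fun i j hij => by have := NA i j hij; linarith)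
    rcases sepB i j hij with (h | h) | h | (h | h)
    exacts [absurd h (h0 _ _), absurd h (h0 _ _), h, absurd h (h1 _ _), absurd h (h1 _ _)]
  have B12 : (∀ i j, ¬ Above (b 1) (b 0) (b 2) i j) → (∀ i j, ¬ Above (b 2) (b 0) (b 1) i j) →
      False := by
    intro h0 h1
    refine core' (b 0) (b 1) (b 2) (a 0) (a 1) (a 2)
      (fun i j => by
        have := E j i
        rw [max_comm (b 2 i), max_comm (b 0 i), max_comm (b 1 i)]; linarith)
      (fun i j hij => ?_) (fun i j hij => by have := NA i j hij; linarith)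
    rcases sepB i j hij with h | (h | h) | (h | h)
    exacts [h, absurd h (h0 _ _), absurd h (h0 _ _), absurd h (h1 _ _), absurd h (h1 _ _)]
  rcases dis0 with h0 | h0 <;> rcases dis1 with h1 | h1 <;> rcases dis2 with h2 | h2
  · exact A01 h0 h1
  · exact A01 h0 h1
  · exact A02 h0 h2
  · exact B12 h1 h2
  · exact A12 h1 h2
  · exact B02 h0 h2
  · exact B01 h0 h1
  · exact B01 h0 h1

/-- The complete bipartite graph `K_{3,3}` is a bounded tolerance graph which is not a
max-tolerance graph. -/
theorem result : IsBoundedTolerance (completeBipartiteGraph (Fin 3) (Fin 3)) ∧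
    ¬ IsMaxTolerance (completeBipartiteGraph (Fin 3) (Fin 3)) := by
  constructor
  · refine ⟨Sum.elim (fun i => (i : ℝ)) (fun j => (j : ℝ) - 3),
      Sum.elim (fun i => (i : ℝ) + 1) (fun j => (j : ℝ) + 10),
      Sum.elim (fun _ => 1) (fun _ => 13), ?_, ?_, ?_⟩
    · rintro (i | j) <;> simp <;> linarith
    · rintro (i | j) <;> constructor <;> simp <;> linarith
    · rintro (i | i) (j | j) hij
      · have hne : i ≠ j := fun h => hij (by rw [h])
        simp only [completeBipartiteGraph_adj, Sum.elim_inl, overlap]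
        fin_cases i <;> fin_cases j <;> simp_all <;> norm_num
      · simp only [completeBipartiteGraph_adj, Sum.elim_inl, Sum.elim_inr, overlap]
        fin_cases i <;> fin_cases j <;> norm_num
      · simp only [completeBipartiteGraph_adj, Sum.elim_inl, Sum.elim_inr, overlap]
        fin_cases i <;> fin_cases j <;> norm_num
      · have hne : i ≠ j := fun h => hij (by rw [h])
        simp only [completeBipartiteGraph_adj, Sum.elim_inr, overlap]
        fin_cases i <;> fin_cases j <;> simp_all <;> norm_num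
  · rintro ⟨L, R, t, -, ht, hadj⟩
    have conv : ∀ x y, x ≠ y → ((completeBipartiteGraph (Fin 3) (Fin 3)).Adj x y ↔
        max (L x) (L y) + max (-R x) (-R y) + max (t x) (t y) ≤ 0) := by
      intro x y hxy
      rw [hadj x y hxy, overlap, max_neg_neg]
      have hpos : 0 < max (t x) (t y) := lt_of_lt_of_le (ht x) (le_max_left _ _)
      constructor
      · intro h
        rcases le_max_iff.1 h with h | h <;> linarith
      · intro h
        exact le_max_of_le_right (by linarith)
    refine no_two_triples ![fun i => L (.inl i), fun i => -R (.inl i), fun i => t (.inl i)]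
      ![fun i => L (.inr i), fun i => -R (.inr i), fun i => t (.inr i)] ?_ ?_ ?_
    · intro i j
      have := (conv (.inl i) (.inr j) (by simp)).1 (by simp)
      simpa using this
    · intro i j hij
      have := (conv (.inl i) (.inl j) (by simpa using hij)).not.1 (by simp)
      simpa using this
    · intro i j hij
      have := (conv (.inr i) (.inr j) (by simpa using hij)).not.1 (by simp)
      simpa using this

end Pool.Agent.Results.MP_78c384_co.KThreeThree
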